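import Mathlib

/-!
Basic facts on the distance to the nearest integer, and three lonely runners.
-/

namespace Pool.Agent.Q52.Lonely

/-- The distance from `x` to the nearest integer. -/
noncomputable def nint (x : ℝ) : ℝ := |x - round x|

theorem nint_le (x : ℝ) (n : ℤ) : nint x ≤ |x - n| := round_le x n

theorem nint_le_half (x : ℝ) : nint x ≤ 1 / 2 := abs_sub_round x

theorem nint_add_int (x : ℝ) (n : ℤ) : nint (x + n) = nint x := by
  unfold nint
  rw [round_add_intCast]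
  push_cast
  congr 1
  ring

theorem le_nint {x c : ℝ} (n : ℤ) (h1 : (n : ℝ) + c ≤ x) (h2 : x ≤ n + 1 - c) : c ≤ nint x := by
  unfold nint
  rcases le_or_gt (round x) n with h | h
  · have : ((round x : ℤ) : ℝ) ≤ n := by exact_mod_cast h
    exact le_trans (by linarith) (le_abs_self _)
  · have : (n : ℝ) + 1 ≤ ((round x : ℤ) : ℝ) := by exact_mod_cast h
    exact le_trans (by linarith) (neg_le_abs _)

theorem nint_neg (x : ℝ) : nint (-x) = nint x := by
  apply le_antisymm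
  · have := nint_le (-x) (-(round x))
    push_cast at this
    rw [show -x - -(round x : ℝ) = -(x - round x) by ring, abs_neg] at this
    exact this
  · have := nint_le x (-(round (-x)))
    push_cast at this
    rw [show x - -(round (-x) : ℝ) = -(-x - round (-x)) by ring, abs_neg] at this
    exact this

theorem nint_frac {q r : ℕ} (hq : 0 < q) (c : ℝ) (h1 : c * q ≤ r) (h3 : 2 * r ≤ q) (hc : c ≤ 1 / 2)
    (n m : ℤ) (h : n = r + q * m) : c ≤ nint ((n : ℝ) / q) := by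
  have hq0 : (0 : ℝ) < q := by exact_mod_cast hq
  have h1' : (n : ℝ) / q = (r : ℝ) / q + m := by
    rw [h]; push_cast; field_simp
  have h3' : 2 * (r : ℝ) ≤ q := by exact_mod_cast h3
  have h4 : c ≤ (r : ℝ) / q := by rw [le_div_iff₀ hq0]; exact h1
  have h5 : (r : ℝ) / q ≤ 1 / 2 := by rw [div_le_iff₀ hq0]; linarith
  apply le_nint m
  · rw [h1']; linarith
  · rw [h1']; linarith

/-- The residue `⌊q / 2⌋` is at distance at least `1 / 3` from the multiples of `q ≥ 2`. -/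
theorem nint_third {q : ℕ} (hq : 2 ≤ q) (n m : ℤ) (h : n = (q / 2 : ℕ) + q * m) :
    1 / 3 ≤ nint ((n : ℝ) / q) := by
  refine nint_frac (r := q / 2) (by omega) _ ?_ (by omega) (by norm_num) n m h
  have h2 : q ≤ 3 * (q / 2) := by omega
  have h2' : (q : ℝ) ≤ 3 * ((q / 2 : ℕ) : ℝ) := by exact_mod_cast h2
  linarith

/-- The residue `⌊q / 2⌋` is at distance at least `2 / 5` from the multiples of `q ≥ 4`. -/
theorem nint_two_fifth {q : ℕ} (hq : 4 ≤ q) (n m : ℤ) (h : n = (q / 2 : ℕ) + q * m) :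
    2 / 5 ≤ nint ((n : ℝ) / q) := by
  refine nint_frac (r := q / 2) (by omega) _ ?_ (by omega) (by norm_num) n m h
  have h2 : 2 * q ≤ 5 * (q / 2) := by omega
  have h2' : 2 * (q : ℝ) ≤ 5 * ((q / 2 : ℕ) : ℝ) := by exact_mod_cast h2
  linarith

/-- Solving a linear congruence. -/
theorem exists_mul_eq {a q : ℤ} (h : IsCoprime a q) (r : ℤ) : ∃ j m : ℤ, a * j = r + q * m := by
  obtain ⟨u, v, huv⟩ := h
  refine ⟨u * r, -(v * r), ?_⟩
  linear_combination r * huv

/-- If `F ∤ c` then some multiple of `c / F` is at distance at least `1 / 3` from the integers. -/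
theorem exists_mult {c F : ℕ} (hF : 0 < F) (h : ¬ F ∣ c) :
    ∃ j : ℤ, 1 / 3 ≤ nint ((c : ℝ) * (j / F)) := by
  have hF0 : (0 : ℝ) < F := by exact_mod_cast hF
  set g := Nat.gcd c F with hg
  have hgpos : 0 < g := Nat.gcd_pos_of_pos_right _ hF
  obtain ⟨p, hp⟩ : g ∣ c := Nat.gcd_dvd_left _ _
  obtain ⟨q, hq⟩ : g ∣ F := Nat.gcd_dvd_right _ _
  have hcop : Nat.Coprime p q := by
    have : Nat.gcd (g * p) (g * q) = g := by rw [← hp, ← hq]
    rw [Nat.gcd_mul_left] at this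
    have h' : g * Nat.gcd p q = g * 1 := by rw [this, mul_one]
    exact Nat.eq_of_mul_eq_mul_left hgpos h'
  have hq2 : 2 ≤ q := by
    rcases Nat.lt_or_ge q 2 with hlt | hge
    · exfalso
      have hq1 : q = 0 ∨ q = 1 := by omega
      rcases hq1 with h0 | h1
      · rw [h0, mul_zero] at hq; omega
      · apply h; rw [hq, h1, mul_one]; exact ⟨p, hp⟩
    · exact hge
  obtain ⟨j, m, hjm⟩ := exists_mul_eq (a := (p : ℤ)) (q := (q : ℤ))
    (Nat.isCoprime_iff_coprime.2 hcop) ((q / 2 : ℕ) : ℤ)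
  refine ⟨j, ?_⟩
  have e : (c : ℝ) * (j / F) = (((p : ℤ) * j : ℤ) : ℝ) / q := by
    have hg0 : (g : ℝ) ≠ 0 := by exact_mod_cast hgpos.ne'
    have hq0 : (q : ℝ) ≠ 0 := by exact_mod_cast (by omega : q ≠ 0)
    rw [hp, hq]
    push_cast
    field_simp
  rw [e]
  exact nint_third hq2 _ m hjm

/-- Two runners of different positive speeds are at distance at least `1 / 3` at some time. -/
theorem two_third {a b : ℕ} (ha : 0 < a) (hb : 0 < b) :
    ∃ t : ℝ, 1 / 3 ≤ nint (a * t) ∧ 1 / 3 ≤ nint (b * t) := by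
  have hF : 0 < a + b := by omega
  by_cases h : a + b ∣ a
  · have := Nat.le_of_dvd ha h
    omega
  · obtain ⟨j, hj⟩ := exists_mult hF h
    refine ⟨j / (a + b : ℕ), hj, ?_⟩
    have hF0 : ((a + b : ℕ) : ℝ) ≠ 0 := by exact_mod_cast hF.ne'
    have e : (b : ℝ) * (j / (a + b : ℕ)) = -((a : ℝ) * (j / (a + b : ℕ))) + j := by
      have : ((a + b : ℕ) : ℝ) * (j / (a + b : ℕ)) = j := by field_simp
      push_cast at this ⊢
      linarith
    rw [e, nint_add_int, nint_neg]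
    exact hj

/-- Two runners of different positive speeds: `2 / 5` for the first, `1 / 5` for the second. -/
theorem two_fifth {a b : ℕ} (ha : 0 < a) (hb : 0 < b) (hab : a ≠ b) :
    ∃ t : ℝ, 2 / 5 ≤ nint (a * t) ∧ 1 / 5 ≤ nint (b * t) := by
  set g := Nat.gcd a b with hg
  have hgpos : 0 < g := Nat.gcd_pos_of_pos_left _ ha
  have hg0 : (g : ℝ) ≠ 0 := by exact_mod_cast hgpos.ne'
  obtain ⟨p, hp⟩ : g ∣ a := Nat.gcd_dvd_left _ _
  obtain ⟨q, hq⟩ : g ∣ b := Nat.gcd_dvd_right _ _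
  have hcop : Nat.Coprime p q := by
    have : Nat.gcd (g * p) (g * q) = g := by rw [← hp, ← hq]
    rw [Nat.gcd_mul_left] at this
    have h' : g * Nat.gcd p q = g * 1 := by rw [this, mul_one]
    exact Nat.eq_of_mul_eq_mul_left hgpos h'
  have hp0 : 0 < p := by
    rcases Nat.eq_zero_or_pos p with h | h
    · rw [h, mul_zero] at hp; omega
    · exact h
  have hq0 : 0 < q := by
    rcases Nat.eq_zero_or_pos q with h | h
    · rw [h, mul_zero] at hq; omega
    · exact h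
  have hpq : p ≠ q := by rintro rfl; exact hab (hp.trans hq.symm)
  suffices H : ∃ t : ℝ, 2 / 5 ≤ nint (p * t) ∧ 1 / 5 ≤ nint (q * t) by
    obtain ⟨t, h1, h2⟩ := H
    refine ⟨t / g, ?_, ?_⟩
    · rw [hp]; push_cast
      rw [show (g : ℝ) * p * (t / g) = p * t by field_simp]
      exact h1
    · rw [hq]; push_cast
      rw [show (g : ℝ) * q * (t / g) = q * t by field_simp]
      exact h2
  rcases Nat.lt_or_ge (p + q) 4 with h4 | h4
  · have : (p = 1 ∧ q = 2) ∨ (p = 2 ∧ q = 1) := by omega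
    rcases this with ⟨rfl, rfl⟩ | ⟨rfl, rfl⟩
    · refine ⟨2 / 5, le_nint 0 (by norm_num) (by norm_num), le_nint 0 (by norm_num) (by norm_num)⟩
    · refine ⟨1 / 5, le_nint 0 (by norm_num) (by norm_num), le_nint 0 (by norm_num) (by norm_num)⟩
  · have hcop' : IsCoprime (p : ℤ) ((p + q : ℕ) : ℤ) := by
      rw [Nat.isCoprime_iff_coprime]
      simpa using hcop
    obtain ⟨j, m, hjm⟩ := exists_mul_eq hcop' (((p + q) / 2 : ℕ) : ℤ)
    have hF0 : ((p + q : ℕ) : ℝ) ≠ 0 := by exact_mod_cast (by omega : p + q ≠ 0)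
    have h1 : 2 / 5 ≤ nint ((p : ℝ) * (j / (p + q : ℕ))) := by
      have e : (p : ℝ) * (j / (p + q : ℕ)) = (((p : ℤ) * j : ℤ) : ℝ) / (p + q : ℕ) := by
        push_cast; ring
      rw [e]
      exact nint_two_fifth h4 _ m hjm
    refine ⟨j / (p + q : ℕ), h1, ?_⟩
    have e : (q : ℝ) * (j / (p + q : ℕ)) = -((p : ℝ) * (j / (p + q : ℕ))) + j := by
      have : ((p + q : ℕ) : ℝ) * (j / (p + q : ℕ)) = j := by field_simp
      push_cast at this ⊢
      linarith
    rw [e, nint_add_int, nint_neg]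
    linarith

/-- Some multiple of `1 / 5` moves `u` into `[y, y + 1 / 5)` modulo one, for a unit `a` mod `5`. -/
theorem exists_shift (u y : ℝ) (a : ℤ) (ha : ¬ (5 : ℤ) ∣ a) :
    ∃ j n : ℤ, n + y ≤ u + a * (j / 5) ∧ u + a * (j / 5) < n + y + 1 / 5 := by
  have hcop : IsCoprime a 5 := by
    rw [isCoprime_comm]
    exact (Prime.coprime_iff_not_dvd (by norm_num : Prime (5 : ℤ))).2 ha
  obtain ⟨j, m, hjm⟩ := exists_mul_eq hcop ⌈5 * (y - u)⌉
  refine ⟨j, m, ?_, ?_⟩
  · have h1 : 5 * (y - u) ≤ ⌈5 * (y - u)⌉ := Int.le_ceil _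
    have h2 : (a : ℝ) * j = ⌈5 * (y - u)⌉ + 5 * m := by exact_mod_cast hjm
    have h3 : (a : ℝ) * (j / 5) = (⌈5 * (y - u)⌉ + 5 * m) / 5 := by rw [← h2]; ring
    rw [h3]; linarith
  · have h1 : (⌈5 * (y - u)⌉ : ℝ) < 5 * (y - u) + 1 := Int.ceil_lt_add_one _
    have h2 : (a : ℝ) * j = ⌈5 * (y - u)⌉ + 5 * m := by exact_mod_cast hjm
    have h3 : (a : ℝ) * (j / 5) = (⌈5 * (y - u)⌉ + 5 * m) / 5 := by rw [← h2]; ring
    rw [h3]; linarith

end Pool.Agent.Q52.Lonely
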