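import Pool.Agent.Q52.Lonely.Three

/-!
The lonely runner conjecture for four runners (three speeds, distance 1/4).
-/

namespace Pool.Agent.Q52.Lonely

theorem nint_add_half (x : ℝ) : 1 / 2 - nint x ≤ nint (x + 1 / 2) := by
  have h : |x - round x| = nint x := rfl
  have h1 := (abs_le.1 h.le).1
  have h2 := (abs_le.1 h.le).2
  apply le_nint (round x) <;> linarith

theorem nint_odd {a : ℕ} (ha : ¬ 2 ∣ a) (t : ℝ) :
    nint (a * (t + 1 / 2)) = nint (a * t + 1 / 2) := by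
  obtain ⟨k, hk⟩ : ∃ k, a = 2 * k + 1 := ⟨a / 2, by omega⟩
  have : (a : ℝ) * (t + 1 / 2) = a * t + 1 / 2 + ((k : ℤ) : ℝ) := by
    rw [hk]; push_cast; ring
  rw [this, nint_add_int]

theorem nint_even {a : ℕ} (ha : 2 ∣ a) (t : ℝ) :
    nint (a * (t + 1 / 2)) = nint (a * t) := by
  obtain ⟨k, hk⟩ := ha
  have : (a : ℝ) * (t + 1 / 2) = a * t + ((k : ℤ) : ℝ) := by
    rw [hk]; push_cast; ring
  rw [this, nint_add_int]

theorem oneEven {a b c : ℕ} (ha : 0 < a) (hb : 0 < b) (hc : 0 < c) (h2a : ¬ 2 ∣ a) (h2b : ¬ 2 ∣ b)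
    (h2c : 2 ∣ c) : ∃ t : ℝ, 1 / 4 ≤ nint (a * t) ∧ 1 / 4 ≤ nint (b * t) ∧ 1 / 4 ≤ nint (c * t) := by
  by_cases h : a < c ∧ b < c
  · have hcR : (0 : ℝ) < c := by exact_mod_cast hc
    have gen : ∀ d : ℕ, d < c → ¬ 2 ∣ d → 1 / 4 ≤ nint (d * (1 / (4 * c) + 1 / 2)) := by
      intro d hd h2d
      rw [nint_odd h2d]
      have hdR : (d : ℝ) < c := by exact_mod_cast hd
      have h1 : (d : ℝ) * (1 / (4 * c)) ≤ c * (1 / (4 * c)) := by gcongr
      rw [show (c : ℝ) * (1 / (4 * c)) = 1 / 4 by field_simp] at h1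
      have h2 : (0 : ℝ) ≤ d * (1 / (4 * c)) := by positivity
      apply le_nint 0 <;> push_cast <;> linarith
    refine ⟨1 / (4 * c) + 1 / 2, gen a h.1 h2a, gen b h.2 h2b, ?_⟩
    rw [nint_even h2c, show (c : ℝ) * (1 / (4 * c)) = 1 / 4 by field_simp]
    apply le_nint 0 <;> norm_num
  · have hF : 0 < a + b := by omega
    have hdvd : ¬ a + b ∣ c := fun hd => by
      have := Nat.le_of_dvd hc hd
      omega
    obtain ⟨j, hj⟩ := exists_mult hF hdvd
    have hF0 : ((a + b : ℕ) : ℝ) ≠ 0 := by exact_mod_cast hF.ne'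
    set t : ℝ := j / (a + b : ℕ) with ht
    have e : (b : ℝ) * t = -((a : ℝ) * t) + j := by
      have : ((a + b : ℕ) : ℝ) * t = j := by rw [ht]; field_simp
      push_cast at this
      linarith
    have hbt : nint (b * t) = nint (a * t) := by rw [e, nint_add_int, nint_neg]
    rcases le_total (1 / 4) (nint (a * t)) with h1 | h1
    · exact ⟨t, h1, by rw [hbt]; exact h1, by linarith⟩
    · refine ⟨t + 1 / 2, ?_, ?_, ?_⟩
      · rw [nint_odd h2a]
        have := nint_add_half (a * t)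
        linarith
      · rw [nint_odd h2b]
        have := nint_add_half (b * t)
        rw [hbt] at this
        linarith
      · rw [nint_even h2c]; linarith

theorem twoEven {a b c : ℕ} (ha : 0 < a) (hb : 0 < b) (h2a : 2 ∣ a) (h2b : 2 ∣ b)
    (h2c : ¬ 2 ∣ c) : ∃ t : ℝ, 1 / 4 ≤ nint (a * t) ∧ 1 / 4 ≤ nint (b * t) ∧ 1 / 4 ≤ nint (c * t) := by
  obtain ⟨t, h1, h2⟩ := two_third ha hb
  rcases le_total (1 / 4) (nint (c * t)) with h3 | h3
  · exact ⟨t, by linarith, by linarith, h3⟩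
  · refine ⟨t + 1 / 2, ?_, ?_, ?_⟩
    · rw [nint_even h2a]; linarith
    · rw [nint_even h2b]; linarith
    · rw [nint_odd h2c]
      have := nint_add_half (c * t)
      linarith

/-- Four runners: three distinct positive speeds are simultaneously at distance at least `1 / 4`. -/
theorem three_quarter : ∀ {a b c : ℕ}, 0 < a → 0 < b → 0 < c →
    ∃ t : ℝ, 1 / 4 ≤ nint (a * t) ∧ 1 / 4 ≤ nint (b * t) ∧ 1 / 4 ≤ nint (c * t) := by
  intro a
  induction a using Nat.strong_induction_on with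
  | _ a ih =>
    intro b c ha hb hc
    by_cases h2a : 2 ∣ a <;> by_cases h2b : 2 ∣ b <;> by_cases h2c : 2 ∣ c
    · obtain ⟨a', rfl⟩ := h2a
      obtain ⟨b', rfl⟩ := h2b
      obtain ⟨c', rfl⟩ := h2c
      obtain ⟨t, h1, h2, h3⟩ := ih a' (by omega) (b := b') (c := c') (by omega) (by omega)
        (by omega)
      refine ⟨t / 2, ?_, ?_, ?_⟩
      · rw [show ((2 * a' : ℕ) : ℝ) * (t / 2) = a' * t by push_cast; ring]; exact h1
      · rw [show ((2 * b' : ℕ) : ℝ) * (t / 2) = b' * t by push_cast; ring]; exact h2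
      · rw [show ((2 * c' : ℕ) : ℝ) * (t / 2) = c' * t by push_cast; ring]; exact h3
    · exact twoEven ha hb h2a h2b h2c
    · obtain ⟨t, h1, h2, h3⟩ := twoEven ha hc h2a h2c h2b
      exact ⟨t, h1, h3, h2⟩
    · obtain ⟨t, h1, h2, h3⟩ := oneEven hb hc ha h2b h2c h2a
      exact ⟨t, h3, h1, h2⟩
    · obtain ⟨t, h1, h2, h3⟩ := twoEven hb hc h2b h2c h2a
      exact ⟨t, h3, h1, h2⟩
    · obtain ⟨t, h1, h2, h3⟩ := oneEven ha hc hb h2a h2c h2b
      exact ⟨t, h1, h3, h2⟩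
    · exact oneEven ha hb hc h2a h2b h2c
    · have gen : ∀ d : ℕ, ¬ 2 ∣ d → 1 / 4 ≤ nint (d * (0 + 1 / 2)) := by
        intro d hd
        rw [nint_odd hd]
        apply le_nint 0 <;> norm_num
      exact ⟨0 + 1 / 2, gen a h2a, gen b h2b, gen c h2c⟩

end Pool.Agent.Q52.Lonely
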