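import Pool.Agent.Q52.Lonely.Basic

/-!
Three lonely runners with mixed distances.
-/

namespace Pool.Agent.Q52.Lonely

theorem nint_shift {b : ℕ} (hb : 5 ∣ b) (t : ℝ) (j : ℤ) : nint (b * (t + j / 5)) = nint (b * t) := by
  obtain ⟨k, rfl⟩ := hb
  have : ((5 * k : ℕ) : ℝ) * (t + j / 5) = ((5 * k : ℕ) : ℝ) * t + ((k * j : ℤ) : ℝ) := by
    push_cast; ring
  rw [this, nint_add_int]

theorem idx_good (x : ℝ) (h : ⌊5 * x⌋ % 5 = 1 ∨ ⌊5 * x⌋ % 5 = 2 ∨ ⌊5 * x⌋ % 5 = 3) :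
    1 / 5 ≤ nint x := by
  have h1 : (⌊5 * x⌋ : ℝ) ≤ 5 * x := Int.floor_le _
  have h2 : 5 * x < ⌊5 * x⌋ + 1 := Int.lt_floor_add_one _
  have h3 : 5 * (⌊5 * x⌋ / 5) + 1 ≤ ⌊5 * x⌋ := by omega
  have h4 : ⌊5 * x⌋ ≤ 5 * (⌊5 * x⌋ / 5) + 3 := by omega
  have h3' : 5 * ((⌊5 * x⌋ / 5 : ℤ) : ℝ) + 1 ≤ ⌊5 * x⌋ := by exact_mod_cast h3
  have h4' : (⌊5 * x⌋ : ℝ) ≤ 5 * ((⌊5 * x⌋ / 5 : ℤ) : ℝ) + 3 := by exact_mod_cast h4
  exact le_nint (⌊5 * x⌋ / 5) (by linarith) (by linarith)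

theorem zmod_shift : ∀ x b y c : ZMod 5, b ≠ 0 → c ≠ 0 → ∃ j : ZMod 5,
    (x + b * j = 1 ∨ x + b * j = 2 ∨ x + b * j = 3) ∧
    (y + c * j = 1 ∨ y + c * j = 2 ∨ y + c * j = 3) := by
  decide

theorem zmod_int (n : ℤ) (r : ℤ) (hr : 0 ≤ r) (hr5 : r < 5) (h : (n : ZMod 5) = (r : ZMod 5)) :
    n % 5 = r := by
  have := (ZMod.intCast_eq_intCast_iff n r 5).1 h
  rw [Int.ModEq] at this
  push_cast at this
  omega

theorem two_shift (u v : ℝ) (b c : ℕ) (hb : ¬ 5 ∣ b) (hc : ¬ 5 ∣ c) :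
    ∃ j : ℤ, 1 / 5 ≤ nint (u + b * (j / 5)) ∧ 1 / 5 ≤ nint (v + c * (j / 5)) := by
  have hb' : ((b : ℕ) : ZMod 5) ≠ 0 := by rwa [Ne, ZMod.natCast_eq_zero_iff]
  have hc' : ((c : ℕ) : ZMod 5) ≠ 0 := by rwa [Ne, ZMod.natCast_eq_zero_iff]
  obtain ⟨j, hj1, hj2⟩ := zmod_shift (⌊5 * u⌋ : ℤ) b (⌊5 * v⌋ : ℤ) c hb' hc'
  have key : ∀ (w : ℝ) (d : ℕ), (((⌊5 * w⌋ : ℤ) : ZMod 5) + d * j = 1 ∨
      ((⌊5 * w⌋ : ℤ) : ZMod 5) + d * j = 2 ∨ ((⌊5 * w⌋ : ℤ) : ZMod 5) + d * j = 3) →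
      1 / 5 ≤ nint (w + d * (((j.val : ℤ) : ℝ) / 5)) := by
    intro w d hd
    have e1 : ⌊5 * (w + d * (((j.val : ℤ) : ℝ) / 5))⌋ = ⌊5 * w⌋ + d * j.val := by
      have : 5 * (w + d * (((j.val : ℤ) : ℝ) / 5)) = 5 * w + ((d * j.val : ℤ) : ℝ) := by
        push_cast; ring
      rw [this, Int.floor_add_intCast]
    have e2 : ((⌊5 * w⌋ + d * j.val : ℤ) : ZMod 5) = ((⌊5 * w⌋ : ℤ) : ZMod 5) + d * j := by
      push_cast
      rw [ZMod.natCast_zmod_val]
    apply idx_good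
    rw [e1]
    rcases hd with h | h | h
    · left; exact zmod_int _ 1 (by norm_num) (by norm_num) (by rw [e2, h]; norm_num)
    · right; left; exact zmod_int _ 2 (by norm_num) (by norm_num) (by rw [e2, h]; norm_num)
    · right; right; exact zmod_int _ 3 (by norm_num) (by norm_num) (by rw [e2, h]; norm_num)
  exact ⟨(j.val : ℤ), key u b hj1, key v c hj2⟩

/-- The speeds `a, b, 2a` with `5 ∣ b` and `5 ∤ a`. -/
theorem double {a b : ℕ} (ha : 0 < a) (hb : 0 < b) (h5b : 5 ∣ b) (h5a : ¬ 5 ∣ a) :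
    ∃ t : ℝ, 9 / 25 ≤ nint (a * t) ∧ 1 / 5 ≤ nint (b * t) ∧ 1 / 5 ≤ nint ((2 * a : ℕ) * t) := by
  set g := Nat.gcd a b with hg
  have hgpos : 0 < g := Nat.gcd_pos_of_pos_left _ ha
  have hg0 : (g : ℝ) ≠ 0 := by exact_mod_cast hgpos.ne'
  obtain ⟨p, hp⟩ : g ∣ a := Nat.gcd_dvd_left _ _
  obtain ⟨q, hq⟩ : g ∣ b := Nat.gcd_dvd_right _ _
  have hcop : Nat.Coprime p q := by
    have : Nat.gcd (g * p) (g * q) = g := by rw [← hp, ← hq]
    rw [Nat.gcd_mul_left] at this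
    have h' : g * Nat.gcd p q = g * 1 := by rw [this, mul_one]
    exact Nat.eq_of_mul_eq_mul_left hgpos h'
  have hp0 : 0 < p := by
    rcases Nat.eq_zero_or_pos p with h | h
    · rw [h, mul_zero] at hp; omega
    · exact h
  have hq0 : 0 < q := by
    rcases Nat.eq_zero_or_pos q with h | h
    · rw [h, mul_zero] at hq; omega
    · exact h
  have h5g : ¬ 5 ∣ g := fun h => h5a (hp ▸ Dvd.dvd.mul_right h p)
  have h5q : 5 ∣ q := by
    rw [hq] at h5b
    exact ((Nat.Prime.dvd_mul (by norm_num)).1 h5b).resolve_left h5g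
  obtain ⟨r, hr⟩ := h5q
  suffices H : ∃ t : ℝ, 9 / 25 ≤ nint (p * t) ∧ 1 / 5 ≤ nint (q * t) ∧ 1 / 5 ≤ nint (2 * p * t) by
    obtain ⟨t, h1, h2, h3⟩ := H
    refine ⟨t / g, ?_, ?_, ?_⟩
    · rw [hp]; push_cast
      rw [show (g : ℝ) * p * (t / g) = p * t by field_simp]
      exact h1
    · rw [hq]; push_cast
      rw [show (g : ℝ) * q * (t / g) = q * t by field_simp]
      exact h2
    · rw [hp]; push_cast
      rw [show 2 * ((g : ℝ) * p) * (t / g) = 2 * p * t by field_simp]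
      exact h3
  rcases Nat.lt_or_ge p 2 with hp2 | hp2
  · obtain rfl : p = 1 := by omega
    have hq5 : 5 ≤ q := by omega
    have hq5' : (5 : ℝ) ≤ q := by exact_mod_cast hq5
    have hqpos : (0 : ℝ) < q := by linarith
    have h1 : (1 : ℝ) / (5 * q) ≤ 1 / 25 := by
      apply one_div_le_one_div_of_le (by norm_num); linarith
    have h2 : (0 : ℝ) < 1 / (5 * q) := by positivity
    refine ⟨2 / 5 - 1 / (5 * q), ?_, ?_, ?_⟩
    · apply le_nint 0 <;> push_cast <;> linarith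
    · have e : (q : ℝ) * (2 / 5 - 1 / (5 * q)) = 2 * r - 1 / 5 := by
        rw [mul_sub]
        rw [show (q : ℝ) * (1 / (5 * q)) = 1 / 5 by field_simp]
        rw [hr]; push_cast; ring
      rw [e]
      apply le_nint (2 * r - 1) <;> push_cast <;> linarith
    · apply le_nint 0 <;> push_cast <;> linarith
  · have hpR : (0 : ℝ) < p := by exact_mod_cast hp0
    obtain ⟨m, k, hmk⟩ := exists_mul_eq (a := (q : ℤ)) (q := (p : ℤ))
      (Nat.isCoprime_iff_coprime.2 hcop.symm) (((p / 2 : ℕ) : ℤ) - 2 * r)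
    refine ⟨(5 * m + 2) / (5 * p), ?_, ?_, ?_⟩
    · have e : (p : ℝ) * ((5 * m + 2) / (5 * p)) = m + 2 / 5 := by field_simp
      rw [e]
      apply le_nint m <;> linarith
    · have e : (q : ℝ) * ((5 * m + 2) / (5 * p)) = (((r : ℤ) * (5 * m + 2) : ℤ) : ℝ) / p := by
        rw [hr]; push_cast; field_simp
      rw [e]
      have h := nint_third hp2 ((r : ℤ) * (5 * m + 2)) k (by
        have hr' : (q : ℤ) = 5 * r := by exact_mod_cast hr
        rw [hr'] at hmk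
        linarith)
      linarith
    · have e : 2 * (p : ℝ) * ((5 * m + 2) / (5 * p)) = 2 * m + 4 / 5 := by field_simp; ring
      rw [e]
      apply le_nint (2 * m) <;> push_cast <;> linarith

/-- The main case: `5 ∣ b`, `5 ∤ a`, `5 ∤ c`. -/
theorem mainCase {a b c : ℕ} (ha : 0 < a) (hb : 0 < b) (hc : 0 < c) (hac : a ≠ c)
    (h5b : 5 ∣ b) (h5a : ¬ 5 ∣ a) (h5c : ¬ 5 ∣ c) :
    ∃ t : ℝ, 9 / 25 ≤ nint (a * t) ∧ 1 / 5 ≤ nint (b * t) ∧ 1 / 5 ≤ nint (c * t) := by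
  have hbR : (0 : ℝ) < b := by exact_mod_cast hb
  have h5a' : ¬ (5 : ℤ) ∣ (a : ℤ) := by omega
  -- the case `c = ± a + e`
  have sub1 : ∀ s e : ℤ, (s = 1 ∨ s = -1) → e ≠ 0 → (5 : ℤ) ∣ e → (c : ℤ) = s * a + e →
      ∃ t : ℝ, 9 / 25 ≤ nint (a * t) ∧ 1 / 5 ≤ nint (b * t) ∧ 1 / 5 ≤ nint (c * t) := by
    intro s e hs he h5e hce
    obtain ⟨e5, he5⟩ := h5e
    have hceR : (c : ℝ) = s * a + e := by exact_mod_cast hce
    have he5R : (e : ℝ) = 5 * e5 := by exact_mod_cast he5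
    obtain ⟨t, n0, ht1, ht2, ht3⟩ : ∃ (t : ℝ) (n0 : ℤ), 1 / 5 ≤ nint (b * t) ∧
        n0 - 1 / 5 ≤ e * t ∧ e * t ≤ n0 + 1 / 5 := by
      by_cases hdvd : e.natAbs ∣ b
      · refine ⟨1 / (5 * b), 0, ?_, ?_, ?_⟩
        · rw [show (b : ℝ) * (1 / (5 * b)) = 1 / 5 by field_simp]
          apply le_nint 0 <;> norm_num
        · have h1 : (e.natAbs : ℝ) ≤ b := by exact_mod_cast Nat.le_of_dvd hb hdvd
          have h2 : |(e : ℝ)| ≤ b := by
            rw [Nat.cast_natAbs] at h1; push_cast at h1; exact h1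
          have h3 := (abs_le.1 h2).1
          have : (e : ℝ) * (1 / (5 * b)) ≥ -(b : ℝ) * (1 / (5 * b)) := by gcongr
          rw [show -(b : ℝ) * (1 / (5 * b)) = -(1 / 5) by field_simp] at this
          push_cast; linarith
        · have h1 : (e.natAbs : ℝ) ≤ b := by exact_mod_cast Nat.le_of_dvd hb hdvd
          have h2 : |(e : ℝ)| ≤ b := by
            rw [Nat.cast_natAbs] at h1; push_cast at h1; exact h1
          have h3 := (abs_le.1 h2).2
          have : (e : ℝ) * (1 / (5 * b)) ≤ (b : ℝ) * (1 / (5 * b)) := by gcongr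
          rw [show (b : ℝ) * (1 / (5 * b)) = 1 / 5 by field_simp] at this
          push_cast; linarith
      · have hpos : 0 < e.natAbs := Int.natAbs_pos.2 he
        obtain ⟨j, hj⟩ := exists_mult hpos hdvd
        have hne : (e : ℝ) ≠ 0 := by exact_mod_cast he
        rcases Int.natAbs_eq e with h | h
        · have hR : (e : ℝ) = (e.natAbs : ℝ) := by
            rw [← Int.cast_natCast (R := ℝ) e.natAbs, ← h]
          have e1 : (e : ℝ) * (j / (e.natAbs : ℝ)) = j := by rw [← hR]; field_simp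
          refine ⟨j / e.natAbs, j, by linarith, ?_, ?_⟩ <;> rw [e1] <;> linarith
        · have hR : (e : ℝ) = -(e.natAbs : ℝ) := by exact_mod_cast h
          have e1 : (e : ℝ) * (j / (e.natAbs : ℝ)) = (-j : ℤ) := by
            rw [show (e.natAbs : ℝ) = -e by linarith]; push_cast; field_simp
          refine ⟨j / e.natAbs, -j, by linarith, ?_, ?_⟩ <;> rw [e1] <;> linarith
    obtain ⟨j, n, hj1, hj2⟩ := exists_shift (a * t) (2 / 5) a h5a'
    refine ⟨t + j / 5, ?_, ?_, ?_⟩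
    · have e1 : (a : ℝ) * (t + j / 5) = a * t + ((a : ℤ) : ℝ) * (j / 5) := by push_cast; ring
      rw [e1]
      apply le_nint n <;> linarith
    · rw [nint_shift h5b]; exact ht1
    · have e1 : (c : ℝ) * (t + j / 5) = s * (a * t + ((a : ℤ) : ℝ) * (j / 5)) + e * t +
          ((e5 * j : ℤ) : ℝ) := by
        rw [hceR, he5R]; push_cast; ring
      rw [e1, nint_add_int]
      rcases hs with rfl | rfl
      · apply le_nint (n + n0) <;> push_cast at * <;> linarith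
      · apply le_nint (-n - 1 + n0) <;> push_cast at * <;> linarith
  have sub2 : ∀ s e : ℤ, (s = 1 ∨ s = -1) → e ≠ 0 → (5 : ℤ) ∣ e → (c : ℤ) = 2 * s * a + e →
      ∃ t : ℝ, 9 / 25 ≤ nint (a * t) ∧ 1 / 5 ≤ nint (b * t) ∧ 1 / 5 ≤ nint (c * t) := by
    intro s e hs he h5e hce
    obtain ⟨e5, he5⟩ := h5e
    have hceR : (c : ℝ) = 2 * s * a + e := by exact_mod_cast hce
    have he5R : (e : ℝ) = 5 * e5 := by exact_mod_cast he5
    have hpos : 0 < e.natAbs := Int.natAbs_pos.2 he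
    obtain ⟨t, ht1, ht2⟩ := two_third hb hpos
    have ht3 : 1 / 3 ≤ nint (e * t) := by
      rcases Int.natAbs_eq e with h | h
      · have hR : (e : ℝ) = (e.natAbs : ℝ) := by
          rw [← Int.cast_natCast (R := ℝ) e.natAbs, ← h]
        rw [hR]; exact ht2
      · have hR : (e : ℝ) = -(e.natAbs : ℝ) := by exact_mod_cast h
        rw [hR, neg_mul, nint_neg]; exact ht2
    have hd1 : (⌊(e : ℝ) * t⌋ : ℝ) + 1 / 3 ≤ e * t := by
      have h1 := nint_le (e * t) ⌊(e : ℝ) * t⌋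
      rw [abs_of_nonneg (by linarith [Int.floor_le ((e : ℝ) * t)])] at h1
      linarith
    have hd2 : (e : ℝ) * t ≤ ⌊(e : ℝ) * t⌋ + 2 / 3 := by
      have h1 := nint_le (e * t) (⌊(e : ℝ) * t⌋ + 1)
      rw [abs_of_nonpos (by push_cast; linarith [Int.lt_floor_add_one ((e : ℝ) * t)])] at h1
      push_cast at h1
      linarith
    set n0 := ⌊(e : ℝ) * t⌋ with hn0
    have fin : ∀ y : ℝ, (y = 9 / 25 ∨ y = 11 / 25) → ∀ N : ℤ, (∀ j n : ℤ,
        n + y ≤ a * t + ((a : ℤ) : ℝ) * (j / 5) → a * t + ((a : ℤ) : ℝ) * (j / 5) < n + y + 1 / 5 →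
        ((2 * s * n + N : ℤ) : ℝ) + 1 / 5 ≤ 2 * s * (a * t + ((a : ℤ) : ℝ) * (j / 5)) + e * t ∧
        2 * s * (a * t + ((a : ℤ) : ℝ) * (j / 5)) + e * t ≤ ((2 * s * n + N : ℤ) : ℝ) + 1 - 1 / 5) →
        ∃ t : ℝ, 9 / 25 ≤ nint (a * t) ∧ 1 / 5 ≤ nint (b * t) ∧ 1 / 5 ≤ nint (c * t) := by
      intro y hy N hN
      obtain ⟨j, n, hj1, hj2⟩ := exists_shift (a * t) y a h5a'
      refine ⟨t + j / 5, ?_, ?_, ?_⟩
      · have e1 : (a : ℝ) * (t + j / 5) = a * t + ((a : ℤ) : ℝ) * (j / 5) := by push_cast; ring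
        rw [e1]
        apply le_nint n <;> rcases hy with rfl | rfl <;> linarith
      · rw [nint_shift h5b]; linarith
      · have e1 : (c : ℝ) * (t + j / 5) = 2 * s * (a * t + ((a : ℤ) : ℝ) * (j / 5)) + e * t +
            ((e5 * j : ℤ) : ℝ) := by
          rw [hceR, he5R]; push_cast; ring
        rw [e1, nint_add_int]
        obtain ⟨q1, q2⟩ := hN j n hj1 hj2
        exact le_nint _ q1 q2
    rcases hs with rfl | rfl
    · rcases le_total ((e : ℝ) * t) (n0 + 1 / 2) with h | h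
      · refine fin (11 / 25) (Or.inr rfl) (1 + n0) ?_
        intro j n q1 q2
        constructor <;> push_cast at * <;> linarith
      · refine fin (9 / 25) (Or.inl rfl) (1 + n0) ?_
        intro j n q1 q2
        constructor <;> push_cast at * <;> linarith
    · rcases le_total ((e : ℝ) * t) (n0 + 1 / 2) with h | h
      · refine fin (9 / 25) (Or.inl rfl) (-1 + n0) ?_
        intro j n q1 q2
        constructor <;> push_cast at * <;> linarith
      · refine fin (11 / 25) (Or.inr rfl) (-1 + n0) ?_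
        intro j n q1 q2
        constructor <;> push_cast at * <;> linarith
  have hcase : (5 : ℤ) ∣ (c : ℤ) - a ∨ (5 : ℤ) ∣ (c : ℤ) + a ∨ (5 : ℤ) ∣ (c : ℤ) - 2 * a ∨
      (5 : ℤ) ∣ (c : ℤ) + 2 * a := by
    have q1 : a % 5 = 1 ∨ a % 5 = 2 ∨ a % 5 = 3 ∨ a % 5 = 4 := by omega
    have q2 : c % 5 = 1 ∨ c % 5 = 2 ∨ c % 5 = 3 ∨ c % 5 = 4 := by omega
    rcases q1 with h | h | h | h <;> rcases q2 with h' | h' | h' | h' <;> omega
  rcases hcase with h | h | h | h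
  · exact sub1 1 (c - a) (Or.inl rfl) (by omega) h (by ring)
  · exact sub1 (-1) (c + a) (Or.inr rfl) (by omega) h (by ring)
  · by_cases h0 : (c : ℤ) - 2 * a = 0
    · obtain rfl : c = 2 * a := by omega
      exact double ha hb h5b h5a
    · exact sub2 1 (c - 2 * a) (Or.inl rfl) h0 h (by ring)
  · exact sub2 (-1) (c + 2 * a) (Or.inr rfl) (by omega) h (by ring)

/-- For pairwise distinct speeds `a, b, c` there is a time at which the first runner is at distance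
at least `9 / 25` and the other two are at distance at least `1 / 5`. -/
theorem three_mixed : ∀ {a b c : ℕ}, 0 < a → 0 < b → 0 < c → a ≠ b → a ≠ c → b ≠ c →
    ∃ t : ℝ, 9 / 25 ≤ nint (a * t) ∧ 1 / 5 ≤ nint (b * t) ∧ 1 / 5 ≤ nint (c * t) := by
  intro a
  induction a using Nat.strong_induction_on with
  | _ a ih =>
    intro b c ha hb hc hab hac hbc
    by_cases h5a : 5 ∣ a <;> by_cases h5b : 5 ∣ b <;> by_cases h5c : 5 ∣ c
    · obtain ⟨a', rfl⟩ := h5a
      obtain ⟨b', rfl⟩ := h5b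
      obtain ⟨c', rfl⟩ := h5c
      obtain ⟨t, h1, h2, h3⟩ := ih a' (by omega) (b := b') (c := c') (by omega) (by omega)
        (by omega) (by omega) (by omega) (by omega)
      refine ⟨t / 5, ?_, ?_, ?_⟩
      · rw [show ((5 * a' : ℕ) : ℝ) * (t / 5) = a' * t by push_cast; ring]; exact h1
      · rw [show ((5 * b' : ℕ) : ℝ) * (t / 5) = b' * t by push_cast; ring]; exact h2
      · rw [show ((5 * c' : ℕ) : ℝ) * (t / 5) = c' * t by push_cast; ring]; exact h3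
    · obtain ⟨t, h1, h2⟩ := two_fifth ha hb hab
      obtain ⟨j, n, hj1, hj2⟩ := exists_shift (c * t) (2 / 5) c (by omega)
      refine ⟨t + j / 5, ?_, ?_, ?_⟩
      · rw [nint_shift h5a]; linarith
      · rw [nint_shift h5b]; exact h2
      · rw [show (c : ℝ) * (t + j / 5) = c * t + ((c : ℤ) : ℝ) * (j / 5) by push_cast; ring]
        apply le_nint n <;> linarith
    · obtain ⟨t, h1, h2⟩ := two_fifth ha hc hac
      obtain ⟨j, n, hj1, hj2⟩ := exists_shift (b * t) (2 / 5) b (by omega)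
      refine ⟨t + j / 5, ?_, ?_, ?_⟩
      · rw [nint_shift h5a]; linarith
      · rw [show (b : ℝ) * (t + j / 5) = b * t + ((b : ℤ) : ℝ) * (j / 5) by push_cast; ring]
        apply le_nint n <;> linarith
      · rw [nint_shift h5c]; exact h2
    · have haR : (0 : ℝ) < a := by exact_mod_cast ha
      obtain ⟨j, h1, h2⟩ := two_shift (b * (1 / (2 * a))) (c * (1 / (2 * a))) b c h5b h5c
      refine ⟨1 / (2 * a) + j / 5, ?_, ?_, ?_⟩
      · rw [nint_shift h5a, show (a : ℝ) * (1 / (2 * a)) = 1 / 2 by field_simp]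
        apply le_nint 0 <;> norm_num
      · rw [mul_add]; exact h1
      · rw [mul_add]; exact h2
    · obtain ⟨t, h1, h2⟩ := two_third hb hc
      obtain ⟨j, n, hj1, hj2⟩ := exists_shift (a * t) (2 / 5) a (by omega)
      refine ⟨t + j / 5, ?_, ?_, ?_⟩
      · rw [show (a : ℝ) * (t + j / 5) = a * t + ((a : ℤ) : ℝ) * (j / 5) by push_cast; ring]
        apply le_nint n <;> linarith
      · rw [nint_shift h5b]; linarith
      · rw [nint_shift h5c]; linarith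
    · exact mainCase ha hb hc hac h5b h5a h5c
    · obtain ⟨t, h1, h2, h3⟩ := mainCase ha hc hb hab h5c h5a h5b
      exact ⟨t, h1, h3, h2⟩
    · -- none divisible by 5
      have hcop : IsCoprime (a : ℤ) 5 := by
        rw [isCoprime_comm]
        exact (Prime.coprime_iff_not_dvd (by norm_num : Prime (5 : ℤ))).2 (by omega)
      obtain ⟨j, m, hjm⟩ := exists_mul_eq hcop 2
      have h5j : ¬ (5 : ℤ) ∣ j := by
        rintro ⟨j', rfl⟩
        have : (5 : ℤ) ∣ 2 := ⟨a * j' - m, by linarith⟩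
        omega
      have hprime : Prime (5 : ℤ) := by norm_num
      have gen : ∀ d : ℕ, ¬ 5 ∣ d → 1 / 5 ≤ nint (d * ((j : ℝ) / 5)) := by
        intro d hd
        have hd' : ¬ (5 : ℤ) ∣ (d : ℤ) * j := by
          intro h
          rcases hprime.dvd_or_dvd h with h | h
          · omega
          · exact h5j h
        have e1 : (d : ℝ) * ((j : ℝ) / 5) = (((d : ℤ) * j : ℤ) : ℝ) / 5 := by push_cast; ring
        rw [e1]
        have h1 : 5 * (((d : ℤ) * j) / 5) + 1 ≤ (d : ℤ) * j := by omega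
        have h2 : (d : ℤ) * j ≤ 5 * (((d : ℤ) * j) / 5) + 4 := by omega
        have h1' : 5 * ((((d : ℤ) * j) / 5 : ℤ) : ℝ) + 1 ≤ (((d : ℤ) * j : ℤ) : ℝ) := by
          exact_mod_cast h1
        have h2' : (((d : ℤ) * j : ℤ) : ℝ) ≤ 5 * ((((d : ℤ) * j) / 5 : ℤ) : ℝ) + 4 := by
          exact_mod_cast h2
        apply le_nint (((d : ℤ) * j) / 5) <;> linarith
      refine ⟨j / 5, ?_, gen b h5b, gen c h5c⟩
      have hR : (a : ℝ) * j = 2 + 5 * m := by exact_mod_cast hjm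
      rw [show (a : ℝ) * (j / 5) = m + 2 / 5 by linarith]
      apply le_nint m <;> linarith

end Pool.Agent.Q52.Lonely
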